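import Pool.Agent.TotaroVar.A12Main
import Pool.Agent.TotaroVar.A15Exists

/-!
# The deformation functor of Totaro's non-liftable Fano variety

Let `k` be an algebraically closed field of characteristic `p ≥ 5` and let `X = P(F^*S)` over the
Grassmannian `Gr(2, p + 2)` be Totaro's variety. Then `Def_{X/W(k)}` is isomorphic to `Spf k`.
All definitions are in `Pool.Agent.TotaroVar.Defs`.
-/

open AlgebraicGeometry CategoryTheory

universe u

namespace Pool.Agent.Results.MP_8fd414_ag.TotaroDeformations

open Pool.Agent.Totaro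

/-- Totaro's variety `X` exists (there is a `k`-scheme with its functor of points), and
`Def_{X/W(k)} ≅ Spf k` for every such `X`. -/
theorem result (p : ℕ) [Fact p.Prime] (hp : 5 ≤ p) (k : Type u) [Field k] [IsAlgClosed k]
    [CharP k p] :
    (∃ (X : Scheme.{u}) (s : X ⟶ Spec (.of k)), Nonempty (TotaroVariety p s)) ∧
      ∀ (X : Scheme.{u}) (s : X ⟶ Spec (.of k)), Nonempty (TotaroVariety p s) →
        Nonempty (defFunctor p s ≅ spfFunctor p k ⋙ uliftFunctor.{u + 1}) :=
  ⟨exists_totaroVariety p k, fun _ s ⟨M⟩ => def_iso_spf p s hp M⟩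

end Pool.Agent.Results.MP_8fd414_ag.TotaroDeformations
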